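import Pool.Agent.R249.MPoly.Ineq

/-!
# MP_9bb3e3_co: the volume of the metric polytope is increasing

The problem asks whether `Vol(M_{n+1}) ≥ Vol(M_n)` for every `n ≥ 2`.  We prove more:
`Vol(M_{n+1}) ≥ 2 Vol(M_n)` and `Vol(M_{n+2}) Vol(M_n) ≥ Vol(M_{n+1})^2` for all `n ≥ 1`.
-/

open MeasureTheory
open scoped ENNReal

namespace Pool.Agent.Results.MP_9bb3e3_co.Doubling

open Pool.Agent.R249.MPoly

/-- The metric polytope `M_n`: the coordinates are indexed by the unordered pairs of distinct
elements of `Fin n`, all coordinates are in `(0, 2]`, and the triangle inequality holds for all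
distinct `i, j, k`. -/
def metricPolytope (n : ℕ) : Set ({s : Sym2 (Fin n) // ¬ s.IsDiag} → ℝ) :=
  {D | (∀ s, 0 < D s ∧ D s ≤ 2) ∧
    ∀ i j k : Fin n, ∀ (hij : i ≠ j) (hik : i ≠ k) (hkj : k ≠ j),
      D ⟨s(i, j), by simpa using hij⟩ ≤
        D ⟨s(i, k), by simpa using hik⟩ + D ⟨s(k, j), by simpa using hkj⟩}

theorem dd_bounds {n : ℕ} {D : E (Fin n) → ℝ} (h : ∀ s, 0 ≤ D s ∧ D s ≤ 2) (a b : Fin n) :
    0 ≤ dd D a b ∧ dd D a b ≤ 2 := by
  by_cases hab : a = b
  · rw [hab, dd_self]
    norm_num
  · rw [dd_ne D hab (by simpa using hab)]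
    exact h _

theorem subset_Mb (n : ℕ) : metricPolytope n ⊆ Mb (Fin n) := by
  rintro D ⟨h1, h2⟩
  have h3 : ∀ a b, 0 ≤ dd D a b ∧ dd D a b ≤ 2 :=
    dd_bounds fun s => ⟨(h1 s).1.le, (h1 s).2⟩
  refine ⟨h3, fun a b c => ?_⟩
  by_cases hab : a = b
  · subst hab
    rw [dd_self]
    have := (h3 a c).1
    have := (h3 c a).1
    linarith
  · by_cases hac : a = c
    · subst hac
      rw [dd_self]
      linarith
    · by_cases hcb : c = b
      · subst hcb
        rw [dd_self]
        linarith
      · rw [dd_ne D hab (by simpa using hab), dd_ne D hac (by simpa using hac),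
          dd_ne D hcb (by simpa using hcb)]
        exact h2 a b c hab hac hcb

theorem Mb_subset (n : ℕ) :
    Mb (Fin n) ⊆ metricPolytope n ∪ ⋃ s : E (Fin n), {D | D s = 0} := by
  intro D hD
  by_cases h : ∃ s, D s = 0
  · obtain ⟨s, hs⟩ := h
    exact Or.inr (Set.mem_iUnion.2 ⟨s, hs⟩)
  · left
    push Not at h
    refine ⟨fun s => ⟨lt_of_le_of_ne (bound_Mb hD s).1 (h s).symm, (bound_Mb hD s).2⟩, ?_⟩
    intro i j k hij hik hkj
    have := hD.2 i j k
    rwa [dd_ne D hij (by simpa using hij), dd_ne D hik (by simpa using hik),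
      dd_ne D hkj (by simpa using hkj)] at this

theorem volume_eq (n : ℕ) : volume (metricPolytope n) = volume (Mb (Fin n)) := by
  apply le_antisymm (measure_mono (subset_Mb n))
  refine (measure_mono (Mb_subset n)).trans ((measure_union_le _ _).trans ?_)
  have h : volume (⋃ s : E (Fin n), {D : E (Fin n) → ℝ | D s = 0}) = 0 := by
    rw [measure_iUnion_null_iff]
    intro s
    exact Measure.pi_hyperplane (fun _ : E (Fin n) => (volume : Measure ℝ)) s 0
  rw [h, add_zero]

theorem volume_small (n : ℕ) (hn : n ≤ 2) : volume (Mb (Fin n)) = 2 ^ (n.choose 2) := by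
  have h1 : Mb (Fin n) = Set.univ.pi fun _ => Set.Icc 0 2 := by
    ext D
    constructor
    · intro h s _
      exact bound_Mb h s
    · intro h
      have h3 : ∀ a b, 0 ≤ dd D a b ∧ dd D a b ≤ 2 := dd_bounds fun s => h s trivial
      refine ⟨h3, fun a b c => ?_⟩
      have h4 : a = b ∨ a = c ∨ c = b := by
        by_contra hcon
        push Not at hcon
        obtain ⟨h5, h6, h7⟩ := hcon
        have h5' := fun h => h5 (Fin.ext h)
        have h6' := fun h => h6 (Fin.ext h)
        have h7' := fun h => h7 (Fin.ext h)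
        have := a.2
        have := b.2
        have := c.2
        omega
      rcases h4 with h4 | h4 | h4
      · subst h4
        rw [dd_self]
        have := (h3 a c).1
        have := (h3 c a).1
        linarith
      · subst h4
        rw [dd_self]
        linarith
      · subst h4
        rw [dd_self]
        linarith
  rw [h1, volume_pi_pi, Finset.prod_const, Real.volume_Icc, Finset.card_univ,
    Sym2.card_subtype_not_diag, Fintype.card_fin]
  norm_num

theorem finite_Mb (n : ℕ) : volume (Mb (Fin n)) ≠ ∞ := by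
  have h1 : Mb (Fin n) ⊆ Metric.closedBall 0 2 := by
    intro D hD
    rw [mem_closedBall_zero_iff, pi_norm_le_iff_of_nonneg (by norm_num)]
    intro s
    rw [Real.norm_eq_abs, abs_of_nonneg (bound_Mb hD s).1]
    exact (bound_Mb hD s).2
  exact ((measure_mono h1).trans_lt measure_closedBall_lt_top).ne

theorem lc (n : ℕ) (hn : 1 ≤ n) : volume (Mb (Fin (n + 1))) ^ 2 ≤
    volume (Mb (Fin (n + 2))) * volume (Mb (Fin n)) := by
  have : Nonempty (Fin n) := ⟨⟨0, hn⟩⟩
  have h := log_convex (B := Fin n)
  rwa [← volume_Mb_congr (finSuccEquiv n),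
    ← volume_Mb_congr ((finSuccEquiv (n + 1)).trans (Equiv.optionCongr (finSuccEquiv n)))] at h

theorem ratio (n : ℕ) (hn : 1 ≤ n) : volume (Mb (Fin n)) ≠ 0 ∧
    2 * volume (Mb (Fin n)) ≤ volume (Mb (Fin (n + 1))) := by
  induction n, hn using Nat.le_induction with
  | base =>
    rw [volume_small 1 (by norm_num), volume_small (1 + 1) (by norm_num)]
    norm_num
  | succ n hn ih =>
    obtain ⟨h0, h1⟩ := ih
    have h2 : volume (Mb (Fin (n + 1))) ≠ 0 := by
      intro h
      rw [h] at h1
      simp at h1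
      exact h0 h1
    refine ⟨h2, ?_⟩
    have h3 := lc n hn
    have h4 : 2 * volume (Mb (Fin (n + 1))) * volume (Mb (Fin n)) ≤
        volume (Mb (Fin (n + 1 + 1))) * volume (Mb (Fin n)) := by
      refine le_trans ?_ h3
      calc 2 * volume (Mb (Fin (n + 1))) * volume (Mb (Fin n))
          = volume (Mb (Fin (n + 1))) * (2 * volume (Mb (Fin n))) := by ring
        _ ≤ volume (Mb (Fin (n + 1))) * volume (Mb (Fin (n + 1))) := by gcongr
        _ = _ := by rw [sq]
    exact (ENNReal.mul_le_mul_iff_left h0 (finite_Mb n)).1 h4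

/-- The answer to Q1 is yes.  Moreover the volume at least doubles when a point is added, and the
sequence of the volumes is log-convex. -/
theorem result :
    (∀ n : ℕ, 2 ≤ n → volume (metricPolytope n) ≤ volume (metricPolytope (n + 1))) ∧
    (∀ n : ℕ, 1 ≤ n → 2 * volume (metricPolytope n) ≤ volume (metricPolytope (n + 1))) ∧
    (∀ n : ℕ, 1 ≤ n → volume (metricPolytope (n + 1)) ^ 2 ≤
      volume (metricPolytope (n + 2)) * volume (metricPolytope n)) ∧
    (∀ n : ℕ, volume (metricPolytope n) ≠ ∞) := by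
  have h2 : ∀ n : ℕ, 1 ≤ n → 2 * volume (metricPolytope n) ≤ volume (metricPolytope (n + 1)) := by
    intro n hn
    rw [volume_eq, volume_eq]
    exact (ratio n hn).2
  refine ⟨fun n hn => ?_, h2, fun n hn => ?_, fun n => ?_⟩
  · refine le_trans ?_ (h2 n (by omega))
    rw [two_mul]
    exact le_self_add
  · rw [volume_eq, volume_eq, volume_eq]
    exact lc n hn
  · rw [volume_eq]
    exact finite_Mb n

end Pool.Agent.Results.MP_9bb3e3_co.Doubling
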